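import Mathlib

namespace Pool.Agent.Results.MP_c389b3_nt.No

/-- `w α β a₁ a₂ j` is the term `w_{j+1}` of the `(α, β)`-walk with starting values `a₁, a₂`. -/
def w (α β a₁ a₂ : ℕ) : ℕ → ℕ
  | 0 => a₁
  | 1 => a₂
  | j + 2 => α * w α β a₁ a₂ (j + 1) + β * w α β a₁ a₂ j

/-- The largest index `k` at which some walk with positive starting values reaches `n`. -/
noncomputable def s (p : ℕ × ℕ) (n : ℕ) : ℕ :=
  sSup {k | 1 ≤ k ∧ ∃ a₁ a₂, 1 ≤ a₁ ∧ 1 ≤ a₂ ∧ w p.1 p.2 a₁ a₂ (k - 1) = n}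

/-- The pairs of `T` attaining the maximum of `s p n` over `T`. -/
def S (T : Set (ℕ × ℕ)) (n : ℕ) : Set (ℕ × ℕ) := {p | p ∈ T ∧ ∀ q ∈ T, s q n ≤ s p n}

/-- The larger root of `x^2 = α x + β`. -/
noncomputable def γ (p : ℕ × ℕ) : ℝ := (p.1 + √(p.1 ^ 2 + 4 * p.2)) / 2

/-- The set `R'_T`. -/
def R' (T : Set (ℕ × ℕ)) : Set (ℕ × ℕ) := {p | p ∈ T ∧ γ p < sInf (γ '' T) ^ 2}

lemma w_shift (α β a b j : ℕ) : w α β a b (j + 1) = w α β b (α * b + β * a) j := by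
  induction j using Nat.twoStepInduction with
  | zero => rfl
  | one => rfl
  | more j h1 h2 => rw [w, h1, h2, w]

lemma w23 (a b j : ℕ) : 4 * (w 2 3 a b j : ℤ) = (a + b) * 3 ^ j + (-1) ^ j * (3 * a - b) := by
  induction j using Nat.twoStepInduction with
  | zero => simp [w]; ring
  | one => simp [w]; ring
  | more j h1 h2 => rw [w]; push_cast; linear_combination 2 * h2 + 3 * h1

lemma w89 (j : ℕ) : 5 * (w 8 9 1 1 j : ℤ) = 9 ^ j + (-1) ^ j * 4 := by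
  induction j using Nat.twoStepInduction with
  | zero => simp [w]
  | one => simp [w]
  | more j h1 h2 => rw [w]; push_cast; linear_combination 8 * h2 + 9 * h1

lemma w_ge (a b j : ℕ) (ha : 1 ≤ a) (hb : 1 ≤ b) : j ≤ w 8 9 a b j ∧ 1 ≤ w 8 9 a b j := by
  induction j using Nat.twoStepInduction with
  | zero => simp [w, ha]
  | one => simp [w, hb]
  | more j h1 h2 => rw [w]; omega

lemma base (i a b : ℕ) (hb : 1 ≤ b) : w 2 3 a b (4 * i + 2) ≠ w 8 9 1 1 (4 * i + 1) := by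
  intro h
  have h1 := w23 a b (4 * i + 2)
  have h2 := w89 (4 * i + 1)
  obtain ⟨e, he⟩ : ∃ e : ℕ, (81 : ℤ) ^ i = 1 + 80 * e := by
    obtain ⟨e, he⟩ : (80 : ℕ) ∣ 81 ^ i - 1 := by
      simpa using Nat.sub_dvd_pow_sub_pow 81 1 i
    have : 1 ≤ 81 ^ i := Nat.one_le_pow _ _ (by norm_num)
    exact ⟨e, by zify [this] at he; linarith⟩
  have e1 : (3 : ℤ) ^ (4 * i + 2) = 9 * 81 ^ i := by rw [pow_add, pow_mul]; ring
  have e2 : (9 : ℤ) ^ (4 * i + 1) = 9 * (81 ^ i) ^ 2 := by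
    rw [pow_add, ← pow_mul, show (81 : ℤ) = 9 ^ 2 by norm_num, ← pow_mul]; ring
  rw [h, e1, he, Even.neg_one_pow ⟨2 * i + 1, by ring⟩] at h1
  rw [e2, he, Odd.neg_one_pow ⟨2 * i, by ring⟩] at h2
  have h3 : (1 + 288 * e + 11520 * e ^ 2 : ℤ) = (a + b) * (2 + 180 * e) + a := by
    have : 20 * (1 + 288 * e + 11520 * e ^ 2 : ℤ) = 20 * ((a + b) * (2 + 180 * e) + a) := by
      linear_combination 5 * h1 - 4 * h2
    linarith
  have hb' : (1 : ℤ) ≤ b := by exact_mod_cast hb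
  rcases le_or_gt (a + b : ℤ) (64 * e) with h4 | h4
  · nlinarith
  · nlinarith

lemma up (i j : ℕ) : ∀ a b : ℕ, 1 ≤ b → w 2 3 a b (4 * i + 2 + j) ≠ w 8 9 1 1 (4 * i + 1) := by
  induction j with
  | zero => exact base i
  | succ j ih =>
    intro a b hb
    rw [← add_assoc, w_shift]
    exact ih _ _ (by omega)

lemma key (i : ℕ) : s (2, 3) (w 8 9 1 1 (4 * i + 1)) ≤ s (8, 9) (w 8 9 1 1 (4 * i + 1)) := by
  refine le_trans (b := 4 * i + 2) (csSup_le' ?_) (le_csSup ⟨w 8 9 1 1 (4 * i + 1) + 1, ?_⟩ ?_)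
  · rintro k ⟨-, a, b, -, hb, h⟩
    by_contra hk
    obtain ⟨j, hj⟩ : ∃ j, k - 1 = 4 * i + 2 + j := ⟨k - 1 - (4 * i + 2), by omega⟩
    rw [hj] at h
    exact up i j a b hb h
  · rintro k ⟨-, a, b, ha, hb, h⟩
    have := (w_ge a b (k - 1) ha hb).1
    simp only at h
    omega
  · exact ⟨by omega, 1, 1, le_rfl, le_rfl, rfl⟩

theorem result : ¬ ∀ T : Set (ℕ × ℕ), T.Nonempty →
    (∀ p ∈ T, 0 < p.1 ∧ 0 < p.2 ∧ Nat.Coprime p.1 p.2) →
    ∀ p ∈ T, ({n : ℕ | 1 ≤ n ∧ p ∈ S T n}.Infinite ↔ p ∈ R' T) := by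
  intro h
  have h1 := (h {(2, 3), (8, 9)} (by simp) (by simp; decide) (8, 9) (by simp)).mp ?_
  · have g1 : γ (2, 3) = 3 := by
      rw [γ, show ((2, 3) : ℕ × ℕ).1 ^ 2 + 4 * (((2, 3) : ℕ × ℕ).2 : ℝ) = 4 ^ 2 by norm_num,
        Real.sqrt_sq (by norm_num)]
      norm_num
    have g2 : γ (8, 9) = 9 := by
      rw [γ, show ((8, 9) : ℕ × ℕ).1 ^ 2 + 4 * (((8, 9) : ℕ × ℕ).2 : ℝ) = 10 ^ 2 by norm_num,
        Real.sqrt_sq (by norm_num)]
      norm_num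
    have := h1.2
    rw [Set.image_pair, csInf_pair, g1, g2] at this
    norm_num at this
  · apply Set.infinite_of_forall_exists_gt
    intro m
    have := w_ge 1 1 (4 * m + 1) le_rfl le_rfl
    refine ⟨w 8 9 1 1 (4 * m + 1), ⟨this.2, by simp, ?_⟩, by omega⟩
    rintro q (rfl | rfl)
    · exact key m
    · exact le_rfl

end Pool.Agent.Results.MP_c389b3_nt.No
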